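import Pool.Agent.helper9.HQ.Spec

/-!
# Row KA2: the value and the area, type A
-/

set_option autoImplicit false

open scoped Classical

namespace Pool.Agent.helper9.HQ

open Finset
open Pool.Agent.helper65.HC (V IsEig IsTop lam)

/-- the last algebraic step -/
theorem KA2_alg (l w z E Y t arc' : ℝ) (h1 : l * (4 - 3 * z) = 4 - z) (h2 : w = (3 * l - 1) * E / 4)
    (h3 : arc' = 2 * l - l ^ 2 + (l - 1) * w * (1 - t)) (h4 : E * (1 - t) = 1 - Y) :
    arc' * (4 - 3 * z) ^ 2 = 16 - 20 * z + 5 * z ^ 2 - 4 * z * Y := by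
  have h5 : (l - 1) * (4 - 3 * z) = 2 * z := by linear_combination h1
  have h6 : w * (4 - 3 * z) = 2 * E := by
    rw [h2]
    linear_combination (3 * E / 4) * h1
  rw [h3]
  have h7 : (2 * l - l ^ 2 + (l - 1) * w * (1 - t)) * (4 - 3 * z) ^ 2 =
      2 * (l * (4 - 3 * z)) * (4 - 3 * z) - (l * (4 - 3 * z)) ^ 2 +
        ((l - 1) * (4 - 3 * z)) * (w * (4 - 3 * z)) * (1 - t) := by ring
  rw [h7, h1, h5, h6]
  linear_combination 4 * z * h4

/-- Row KA2. -/
theorem KA2 : KA2_stmt := by
  intro n x a l nu M q ta hn hC hq0 hq1 hta hw hS ha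
  obtain ⟨m, rfl⟩ : ∃ m, n = m + 1 := ⟨n - 1, by omega⟩
  obtain ⟨w, hwd⟩ : ∃ w, w = wk l x 1 := ⟨_, rfl⟩
  -- the numbers `w_k`
  have hwk : ∀ k, k ≤ m → wk l x (k + 1) = w * q ^ k := by
    intro k
    induction k with
    | zero => intro _; rw [← hwd, pow_zero, mul_one]
    | succ k ih =>
      intro hk
      have h1 := hw (k + 1 + 1) (by omega) (by omega)
      have h2 : k + 1 + 1 - 1 = k + 1 := rfl
      rw [h2, ih (by omega)] at h1
      rw [h1]
      ring
  have hb : ∀ k, k ≤ m → ∑ j ∈ range (k + 1), x j = l - w * q ^ k := by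
    intro k hk
    have h1 := hwk k hk
    unfold wk at h1
    linarith
  have hx0 : x 0 = l - w := by
    have h1 := hb 0 (Nat.zero_le m)
    rw [Finset.sum_range_one, pow_zero, mul_one] at h1
    exact h1
  have hxs : ∀ i, i < m → x (i + 1) = w * q ^ i * (1 - q) := by
    intro i hi
    have h1 := hb i (by omega)
    have h2 := hb (i + 1) (by omega)
    rw [Finset.sum_range_succ, h1] at h2
    rw [pow_succ] at h2
    linear_combination h2
  have hwm : w * q ^ m = l - 1 := by
    have h1 := hb m le_rfl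
    rw [hC.sx] at h1
    linarith
  -- the numbers `a`
  have haa : ∀ k, k ≤ m → a k = a 0 - k * (ta * (1 - q)) := by
    intro k
    induction k with
    | zero => intro _; simp
    | succ k ih =>
      intro hk
      have h1 := ha (k + 1) (by omega) (by omega)
      have h2 : k + 1 - 1 = k := rfl
      rw [h2, ih (by omega)] at h1
      rw [h1]
      push_cast
      ring
  have hta0 : a 0 + a m = ta := by
    have h1 := hS 1 le_rfl (by omega)
    have h2 : m + 1 - 1 = m := rfl
    rw [h2] at h1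
    exact h1
  obtain ⟨E, hE⟩ : ∃ E, E = 1 + (m : ℝ) * (1 - q) := ⟨_, rfl⟩
  have h2a : 2 * a 0 = ta * E := by
    have h1 := haa m le_rfl
    rw [hE]
    linear_combination hta0 - h1
  obtain ⟨F, hF⟩ : ∃ F, F = ∑ j ∈ range (m + 1), x j * a j := ⟨_, rfl⟩
  have he0 : (l - 1) * a 0 = 2 * F := by
    have h1 := hC.e1 0 (by omega)
    rw [Nat.sub_zero, ← hF] at h1
    have h2 : ∑ j ∈ range (m + 1), x j * (a 0 + a j) = a 0 + F := by
      have h3 : ∀ j ∈ range (m + 1), x j * (a 0 + a j) = x j * a 0 + x j * a j := fun j _ => by ring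
      rw [Finset.sum_congr rfl h3, Finset.sum_add_distrib, ← Finset.sum_mul, hC.sx, one_mul, hF]
    rw [h2] at h1
    linarith
  have hem : l * a m = F + x 0 * (a m + a 0) := by
    have h1 := hC.e1 m (by omega)
    have h2 : m + 1 - m = 1 := by omega
    rw [h2, Finset.sum_range_one, ← hF] at h1
    exact h1
  have hwE : w = (3 * l - 1) * E / 4 := by
    have h1 : w * ta = (3 * l - 1) * E / 4 * ta := by
      rw [hx0] at hem
      linear_combination hem - (1 / 2) * he0 + (3 * l - 1) / 4 * h2a - w * hta0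
    exact mul_right_cancel₀ hta.ne' h1
  -- u
  obtain ⟨u, hu⟩ : ∃ u, u = 1 / q - 1 := ⟨_, rfl⟩
  have hqu : 1 + u = 1 / q := by rw [hu]; ring
  have hq : q = 1 / (1 + u) := by
    rw [hqu]
    field_simp
  have hu0 : 0 < u := by
    rw [hu, sub_pos, lt_div_iff₀ hq0, one_mul]
    exact hq1
  have hu1 : (0 : ℝ) < 1 + u := by linarith
  have hEu : E = (1 + (m + 1) * u) / (1 + u) := by
    rw [hE, hq]
    field_simp
    ring
  have hz : zz (m + 1) u = E * q ^ m := by
    unfold zz
    rw [hEu, hq, one_div, inv_pow]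
    push_cast
    field_simp
    ring
  have hz4 : 4 * (l - 1) = (3 * l - 1) * zz (m + 1) u := by
    rw [hz, ← hwm, hwE]
    ring
  have h1 : l * (4 - 3 * zz (m + 1) u) = 4 - zz (m + 1) u := by linear_combination hz4
  refine ⟨u, hu0, h1, ?_⟩
  -- the area
  have harc : arc (m + 1) (m + 1) x = 2 * l - l ^ 2 + (l - 1) * w * (1 - m * u) := by
    unfold arc
    rw [Finset.sum_range_succ', Nat.sub_zero, hC.sx, mul_one, hx0]
    have h2 : ∀ i ∈ range m, x (i + 1) * ∑ j ∈ range (m + 1 - (i + 1)), x j =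
        l * w * (1 - q) * q ^ i - w ^ 2 * (1 - q) * q ^ (m - 1) := by
      intro i hi
      have hi' := Finset.mem_range.1 hi
      have h3 : m + 1 - (i + 1) = (m - i - 1) + 1 := by omega
      rw [h3, hb (m - i - 1) (by omega), hxs i hi']
      have h4 : q ^ (m - 1) = q ^ i * q ^ (m - i - 1) := by
        rw [← pow_add]
        congr 1
        omega
      rw [h4]
      ring
    rw [Finset.sum_congr rfl h2, Finset.sum_sub_distrib, ← Finset.mul_sum, Finset.sum_const,
      Finset.card_range, nsmul_eq_mul]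
    have h3 : (1 - q) * ∑ i ∈ range m, q ^ i = 1 - q ^ m := mul_neg_geom_sum q m
    have h4 : q ^ m = q * q ^ (m - 1) := by
      rw [← pow_succ']
      congr 1
      omega
    have h5 : w * q ^ (m - 1) = (l - 1) * (1 + u) := by
      rw [hqu, ← hwm, h4]
      field_simp
    have h6 : (1 - q) * (1 + u) = u := by
      rw [hq]
      field_simp
      ring
    have h7 : l * w * (1 - q) * ∑ i ∈ range m, q ^ i = l * w * (1 - q ^ m) := by
      rw [← h3]
      ring
    rw [h7]
    have h8 : (m : ℝ) * (w ^ 2 * (1 - q) * q ^ (m - 1)) = m * w * (1 - q) * (w * q ^ (m - 1)) := by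
      ring
    rw [h8, h5]
    have h9 : (m : ℝ) * w * (1 - q) * ((l - 1) * (1 + u)) = m * w * (l - 1) * u := by
      linear_combination ((m : ℝ) * w * (l - 1)) * h6
    rw [h9]
    linear_combination (-l) * hwm
  refine KA2_alg l w (zz (m + 1) u) E (YY (m + 1) u) (m * u) _ h1 hwE harc ?_
  unfold YY
  rw [hEu]
  push_cast
  field_simp
  ring

end Pool.Agent.helper9.HQ
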